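import Pool.Agent.Work.MP_8f87b2_h17.Nat1
import Pool.Agent.Work.MP_8f87b2_h13.R3X
import Pool.Agent.Work.MP_8f87b2_h58.Late
set_option autoImplicit false
set_option linter.all false

/-!
# MP_8f87b2_co: bare T-cycles with exactly two parts `3`, in different gaps

Parity of the displacement of the star; the phase `w = R[3]` with: `R` does not start with `[3]`, `T R` is not `([3]Z)`.
-/

namespace Pool.OddHC
open Finset Equiv BinaryTree Pool.Agent.Work.MP_8f87b2_co
variable {j k n : ℕ}

namespace Ex33

/-! ### Parity and size of the displacement -/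

theorem nv_par : ∀ (k : ℕ) (x : X k), nv x % 2 = ht x.1 % 2 := by
  intro k
  induction k using Nat.strong_induction_on with
  | _ k ih =>
    intro x
    rcases Nat.eq_zero_or_pos k with rfl | hk
    · have h1 : (Vo x).val < 2 * 0 + 1 := ZMod.val_lt _
      have h2 : x.1 = .nil := by
        cases h : x.1 with
        | nil => rfl
        | node _ A B =>
          have h3 := X_num x
          rw [h] at h3
          change A.numNodes + B.numNodes + 1 = 0 at h3
          omega
      have h3 : nv x = 0 := by unfold nv; omega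
      rw [h3, h2]
      rfl
    · obtain ⟨j, u, e, he, hw, h1, h2⟩ := red_ex x
      have hn := (nv_ins hk u e he x hw).2
      by_cases hu : u.1 = .nil
      · have hj : j = 0 := by
          rw [← X_num u, hu]; rfl
        subst hj
        have h3 : (Vo u).val < 2 * 0 + 1 := ZMod.val_lt _
        have h4 : nv u = 0 := by unfold nv; omega
        have hc : cont x.1 = Multiset.replicate e.sum 1 := by
          rw [hw, cont_ins _ _ (by rw [X_num, he]), hu, cont_nil]
          simp
        have h5 : 1 ≤ e.sum := by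
          have h6 : pkn u.1 = 0 := by rw [hu]; rfl
          omega
        have h6 : ht x.1 = 1 := by
          rw [ht_eq, hc]
          apply le_antisymm
          · apply Multiset.sup_le.2
            intro b hb
            rw [Multiset.eq_of_mem_replicate hb]
          · exact Multiset.le_sup (Multiset.mem_replicate.2 ⟨by omega, rfl⟩)
        rw [hn, h4, h6]
        omega
      · have h3 := ht_ins u.1 e (by rw [X_num, he]) hu
        rw [← hw] at h3
        have h4 : 1 ≤ pkn x.1 := by
          rw [h2]
          have h5 : cont u.1 ≠ 0 := fun h => hu (cont_eq_zero.1 h)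
          have h6 : 1 ≤ Multiset.card (cont u.1) := by
            rw [Nat.one_le_iff_ne_zero]
            intro h7
            exact h5 (Multiset.card_eq_zero.1 h7)
          rw [cont_card] at h6
          omega
        have h5 := ih j (by omega) u
        rw [hn, h3]
        omega

/-- no word starts with `x 0 0` -/
theorem wd_start3 {t : BinaryTree Unit} {x : Bool} {r : List Bool} (h : wd t = x :: false :: false :: r) : False := by
  cases t with
  | nil => simp [wd] at h
  | node _ A B =>
    have h1 : wd (A △ B) = x :: false :: false :: r := h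
    rw [wd_node] at h1
    cases A with
    | nil =>
      simp [wd] at h1
      cases B with
      | nil => simp [wd] at h1
      | node _ C D =>
        have h2 : wd (C △ D) = false :: r := h1.2
        rw [wd_node] at h2
        simp at h2
    | node _ C D =>
      have h2 : wd (C △ D) = true :: (wd C ++ false :: wd D) := wd_node C D
      rw [show (BinaryTree.node () C D) = C △ D from rfl, h2] at h1
      simp at h1

/-- a prime word starting with `x y 0 0` has four letters -/
theorem wd_start4 {A : BinaryTree Unit} {x y : Bool} {r : List Bool}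
    (h : wd (A △ .nil) = x :: y :: false :: false :: r) : r = [] := by
  rw [wd_node] at h
  cases A with
  | nil => simp [wd] at h
  | node _ C D =>
    have h2 : wd (C △ D) = true :: (wd C ++ false :: wd D) := wd_node C D
    rw [show (BinaryTree.node () C D) = C △ D from rfl, h2] at h
    cases C with
    | nil =>
      cases D with
      | nil => simp [wd] at h; exact h.2.2
      | node _ E G =>
        have h3 : wd (E △ G) = true :: (wd E ++ false :: wd G) := wd_node E G
        rw [show (BinaryTree.node () E G) = E △ G from rfl, h3] at h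
        simp [wd] at h
    | node _ E G =>
      have h3 : wd (E △ G) = true :: (wd E ++ false :: wd G) := wd_node E G
      rw [show (BinaryTree.node () E G) = E △ G from rfl, h3] at h
      simp at h

theorem wd_head {t : BinaryTree Unit} (h : t ≠ .nil) : ∃ r, wd t = true :: r := by
  cases t with
  | nil => exact absurd rfl h
  | node _ A B => exact ⟨_, wd_node A B⟩

theorem X_ne {u : X n} (h : 1 ≤ n) : u.1 ≠ .nil := by
  intro h0
  have h1 := X_num u
  rw [h0] at h1
  change 0 = n at h1
  omega

/-- the word after the step, `c` letters after the first maximum -/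
theorem step_word (u : X n) (hn : 2 ≤ n) {c : ℕ} (hc : nv u + c = 2 * n) (hc2 : c ≤ 2) :
    ∃ (p s : List Bool), wd (TT u).1 = p ++ false :: false :: s ∧ p.length = c ∧ s.length + c + 2 = 2 * n := by
  have h1 := cw_rot u
  have h2 : cw u.1 = false :: (wd u.1).map not := rfl
  have hl : (cw u.1).length = 2 * n + 1 := cw_len u
  obtain ⟨m, hm⟩ := wd_head (X_ne (u := u) (by omega))
  have hv : (Vo u).val = 2 * n - c := by
    have : nv u = (Vo u).val := rfl
    omega
  rw [hv, List.rotate_eq_drop_append_take (by omega)] at h1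
  have hml : m.length + 1 = 2 * n := by
    have h3 := congrArg List.length hm
    rw [wd_length, X_num, List.length_cons] at h3
    omega
  rw [h2, hm] at h1
  have h4 : (false :: (true :: m).map not) = false :: false :: m.map not := rfl
  rw [h4] at h1
  obtain ⟨q, hq⟩ : ∃ q, 2 * n - c = q + 2 := ⟨2 * n - c - 2, by omega⟩
  rw [hq] at h1
  have h5 : List.drop (q + 2) (false :: false :: m.map not) = (m.map not).drop q := rfl
  have h6 : List.take (q + 2) (false :: false :: m.map not) = false :: false :: (m.map not).take q := rfl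
  rw [h5, h6] at h1
  have h7 : ((m.map not).drop q).length = c + 1 := by
    rw [List.length_drop, List.length_map]
    omega
  have h8 : sl (TF u).1 = false :: wd (TF u).1 := rfl
  obtain ⟨p0, p, hp⟩ : ∃ p0 p, (m.map not).drop q = p0 :: p := by
    cases h9 : (m.map not).drop q with
    | nil => rw [h9] at h7; simp at h7
    | cons p0 p => exact ⟨p0, p, rfl⟩
  rw [hp, h8, List.cons_append, List.cons.injEq] at h1
  refine ⟨p, (m.map not).take q, ?_, ?_, ?_⟩
  · rw [TT_apply]; exact h1.2.symm
  · rw [hp, List.length_cons] at h7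
    omega
  · rw [List.length_take, List.length_map]
    omega

theorem nv_le (u : X n) (hn : 2 ≤ n) : nv u + 2 ≤ 2 * n := by
  by_contra hcon
  have hlt : nv u < 2 * n + 1 := ZMod.val_lt _
  obtain ⟨c, hc, hc2⟩ : ∃ c, nv u + c = 2 * n ∧ c ≤ 1 := ⟨2 * n - nv u, by omega, by omega⟩
  obtain ⟨p, s, h1, h2, h3⟩ := step_word u hn hc (by omega)
  interval_cases c
  · obtain rfl : p = [] := List.length_eq_zero_iff.1 h2
    obtain ⟨r, hr⟩ := wd_head (X_ne (u := TT u) (by omega))
    rw [hr] at h1
    simp at h1
  · obtain ⟨x, rfl⟩ := List.length_eq_one_iff.1 h2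
    exact wd_start3 h1

theorem nv_prime (u : X n) (hn : 3 ≤ n) (h : nv u + 2 = 2 * n) (A : BinaryTree Unit) : (TT u).1 ≠ A △ .nil := by
  intro hA
  obtain ⟨p, s, h1, h2, h3⟩ := step_word u (by omega) h le_rfl
  obtain ⟨x, y, rfl⟩ := List.length_eq_two.1 h2
  rw [hA] at h1
  have h4 := wd_start4 h1
  rw [h4] at h3
  simp at h3
  omega

theorem ht_pow (u : X n) (i : ℕ) : ht ((TT ^ i) u).1 = ht u.1 := by
  rw [ht_eq, ht_eq, cont_pow]

/-- **the parity argument**: two steps of total length `-4` do not exist -/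
theorem no_two (u : X n) (hn : 2 ≤ n) (i l : ℕ)
    (h : Vo ((TT ^ i) u) + Vo ((TT ^ l) u) + 4 = 0) : False := by
  have p1 := nv_par n ((TT ^ i) u)
  have p2 := nv_par n ((TT ^ l) u)
  rw [ht_pow] at p1 p2
  have l1 := nv_le ((TT ^ i) u) hn
  have l2 := nv_le ((TT ^ l) u) hn
  have h1 : ((nv ((TT ^ i) u) + nv ((TT ^ l) u) + 4 : ℕ) : ZMod (2 * n + 1)) = 0 := by
    push_cast
    unfold nv
    rw [ZMod.natCast_zmod_val, ZMod.natCast_zmod_val]
    exact h
  rw [ZMod.natCast_eq_zero_iff] at h1
  obtain ⟨c, hc⟩ := h1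
  have hc1 : c = 1 := by
    rcases Nat.lt_or_ge c 1 with h2 | h2
    · have : c = 0 := by omega
      subst this
      simp at hc
    · rcases Nat.lt_or_ge c 2 with h3 | h3
      · omega
      · have : 2 * (2 * n + 1) ≤ (2 * n + 1) * c := by nlinarith
        omega
  subst hc1
  omega

/-! ### The word over the ring of `v` -/

theorem ins_head0 {A : BinaryTree Unit} (hA : A ≠ .nil) (l : List ℕ) : ∃ C D, ins A (0 :: l) = C △ D ∧ C ≠ .nil := by
  cases A with
  | nil => exact absurd rfl hA
  | node _ P Q =>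
    cases P with
    | nil =>
      refine ⟨lv ((l.take 1).headD 0 + 1) .nil, ins Q (l.drop 1), ?_, by simp [lv]⟩
      change lv 0 (ins .nil (bump .nil (l.take (2 * 0 + 1))) △ ins Q (List.drop (2 * 0 + 2) (0 :: l))) = _
      cases l with
      | nil => rfl
      | cons a l => rfl
    | node _ P1 P2 =>
      refine ⟨ins (P1 △ P2) (l.take (2 * (P1 △ P2).numNodes + 1)), _, rfl, ins_ne_nil (P1 △ P2) _⟩

/-- three levels down: `(()G)` has the bead behind the first letter -/
theorem prime_bead {t : BinaryTree Unit} (ht : 2 ≤ t.numNodes) {f : List ℕ} {G : BinaryTree Unit}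
    (hf : f.length = 2 * t.numNodes + 1) (h : ins t f = (.nil △ G) △ .nil) :
    (∃ A, t = A △ .nil) ∧ 1 ≤ f.getD 1 0 := by
  cases t with
  | nil => simp at ht
  | node _ A B =>
    cases f with
    | nil => simp at hf
    | cons x l =>
      cases x with
      | succ x =>
        have h1 : ins (A △ B) ((x + 1) :: l) = .nil △ ins (A △ B) (x :: l) := ins_succ _ _ _
        have h2 : (BinaryTree.nil : BinaryTree Unit) △ ins (A △ B) (x :: l) = (.nil △ G) △ .nil := h1.symm.trans h
        injection h2 with _ h3 _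
        exact absurd h3 (by simp)
      | zero =>
        have h1 : ins (A △ B) (0 :: l) = ins A (bump A (l.take (2 * A.numNodes + 1))) △
            ins B ((0 :: l).drop (2 * A.numNodes + 2)) := rfl
        have h2 : ins A (bump A (l.take (2 * A.numNodes + 1))) △ ins B ((0 :: l).drop (2 * A.numNodes + 2)) =
          (.nil △ G) △ .nil := h1.symm.trans h
        injection h2 with _ h3 h4
        have hB : B = .nil := by
          cases B with
          | nil => rfl
          | node _ C D => exact absurd h4 (ins_ne_nil (C △ D) _)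
        subst hB
        have hA : A ≠ .nil := by
          rintro rfl
          change 2 ≤ 0 + 0 + 1 at ht
          omega
        refine ⟨⟨A, rfl⟩, ?_⟩
        have h5 : bump A (l.take (2 * A.numNodes + 1)) = l.take (2 * A.numNodes + 1) := by
          cases A with
          | nil => exact absurd rfl hA
          | node _ C D => rfl
        rw [h5] at h3
        have hl : l.length = 2 * A.numNodes + 2 := by
          rw [List.length_cons] at hf
          change l.length + 1 = 2 * (A.numNodes + 0 + 1) + 1 at hf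
          omega
        cases l with
        | nil => simp at hl
        | cons y l =>
          cases y with
          | succ y => simp
          | zero =>
            exfalso
            have h6 : (0 :: l).take (2 * A.numNodes + 1) = 0 :: l.take (2 * A.numNodes) := rfl
            rw [h6] at h3
            obtain ⟨C, D, h7, h8⟩ := ins_head0 hA (l.take (2 * A.numNodes))
            rw [h7] at h3
            injection h3 with _ h9 _
            exact h8 h9

theorem inf_eq_nil {t : BinaryTree Unit} (h : inf t = .nil) : t = .nil := by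
  by_contra h0
  exact inf_ne_nil h0 h

theorem ht_inf1' (t : BinaryTree Unit) : ht (inf1 (inf1 t)) = ht t + 2 := by rw [ht_inf1, ht_inf1]

theorem pc2_ht : ht (pc 2) = 2 := ht_pc 2

theorem ht_zero {t : BinaryTree Unit} (h : ht t = 0) : t = .nil := by
  by_contra h0
  have := ht_pos h0
  omega

/-- `inf inf (C D) = [3]..` -/
theorem st3_down {C D : BinaryTree Unit} (h : St3 (inf (inf (C △ D)))) : C = .nil := by
  obtain ⟨Y, hY⟩ := h
  rw [inf_node, inf_node] at hY
  injection hY with _ h1 _
  have h2 := congrArg ht h1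
  rw [ht_inf1', pc2_ht] at h2
  exact ht_zero (by omega)

/-- `inf inf t = ([3]Z)` -/
theorem prime_down {t Z : BinaryTree Unit} (h : inf (inf t) = (pc 2 △ Z) △ .nil) : ∃ G, t = (.nil △ G) △ .nil := by
  cases t with
  | nil => exact absurd h (by rw [inf_nil, inf_nil]; simp)
  | node _ C D =>
    have h' : inf (inf (C △ D)) = (pc 2 △ Z) △ .nil := h
    rw [inf_node, inf_node] at h'
    injection h' with _ h1 h2
    have hD : D = .nil := inf_eq_nil (inf_eq_nil h2)
    subst hD
    cases C with
    | nil =>
      exfalso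
      change pc 1 △ .nil = pc 2 △ Z at h1
      injection h1 with _ h3 _
      have := congrArg ht h3
      rw [ht_pc, ht_pc] at this
      omega
    | node _ E G =>
      have h3 : inf1 (inf1 (E △ G)) = inf (inf (E △ G)) := by
        rw [inf1_eq (inf1_ne_nil _)]
        rfl
      have h4 : inf1 (inf1 (E △ G)) = pc 2 △ Z := h1
      rw [h3] at h4
      obtain rfl := st3_down ⟨Z, h4⟩
      exact ⟨G, rfl⟩

/-- the word -/
def I3 (t : BinaryTree Unit) (e : List ℕ) : BinaryTree Unit := iy 3 t e

theorem I3_eq (t : BinaryTree Unit) (e : List ℕ) : iy 3 t e = inf (inf (ins t e)) := rfl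

theorem iy_snoc (t : BinaryTree Unit) (e : List ℕ) (x : ℕ) (he : e.length = 2 * t.numNodes) :
    iy 3 t (e ++ [x + 1]) = app (iy 3 t (e ++ [x])) (pc 3) := by
  rw [I3_eq, I3_eq, H1.ins_snoc t e x he, inf_app, inf_app]
  rfl

theorem inf_inj {t t' : BinaryTree Unit} (h : inf t = inf t') : t = t' := by
  unfold inf at h
  exact (ins_inj (by rw [List.length_replicate]) (by rw [List.length_replicate]) h).1

/-- all words of the T-cycle -/
theorem pow_I3 (v : X n) (a : ZMod (2 * n + 1) → ℕ) (z : X k) (hz : z.1 = iy 3 v.1 (lf a)) (i : ℕ) :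
    ((TT ^ i) z).1 = iy 3 ((TT ^ i) v).1 (lf (fun x => a (x + sp v i))) := by
  obtain ⟨u2, hu2⟩ : ∃ u2 : X (ins v.1 (lf a)).numNodes, u2.1 = ins v.1 (lf a) :=
    ⟨⟨_, mem_treesOfNumNodesEq.2 rfl⟩, rfl⟩
  obtain ⟨u1, hu1⟩ : ∃ u1 : X (inf u2.1).numNodes, u1.1 = inf u2.1 :=
    ⟨⟨_, mem_treesOfNumNodesEq.2 rfl⟩, rfl⟩
  have h1 : z.1 = inf u1.1 := by rw [hz, I3_eq, hu1, hu2]
  rw [inf_pow u1 h1 i, inf_pow u2 hu1 i, I3_eq]
  obtain ⟨a', ha', h2⟩ := pow_ins v (lf_length a) hu2
  obtain rfl := lf_inj ha'
  rw [h2 i]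

theorem TT_I3 (v : X n) (a : ZMod (2 * n + 1) → ℕ) (z : X k) (hz : z.1 = iy 3 v.1 (lf a)) :
    (TT z).1 = iy 3 (TT v).1 (lf (fun x => a (x + Vo v))) := by
  have h := pow_I3 v a z hz 1
  have h2 : sp v 1 = Vo v := by
    rw [sp_succ, sp_zero, pow_zero, Equiv.Perm.one_apply, zero_add]
  rw [h2, pow_one, pow_one] at h
  exact h

theorem one_ne (hn : 1 ≤ n) : (1 : ZMod (2 * n + 1)) ≠ 0 := by
  intro e
  have := congrArg ZMod.val e
  rw [ZMod.val_zero, ZMod.val_one_eq_one_mod, Nat.mod_eq_of_lt (by omega)] at this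
  omega

theorem two_ne (hn : 1 ≤ n) : (2 : ZMod (2 * n + 1)) ≠ 0 := by
  intro e
  have h1 : ((2 : ℕ) : ZMod (2 * n + 1)) = 0 := by push_cast; exact e
  rw [ZMod.natCast_eq_zero_iff] at h1
  have := Nat.le_of_dvd (by norm_num) h1
  omega

/-- the phase with the last bead at `y` -/
theorem phase (hn : 2 ≤ n) (v : X n) (a : ZMod (2 * n + 1) → ℕ) (z : X k) (hz : z.1 = iy 3 v.1 (lf a))
    {y : ZMod (2 * n + 1)} (hy : a y = 1) (hy1 : a (y + 1) = 0) :
    ∃ (i : ℕ) (R : BinaryTree Unit), ((TT ^ i) z).1 = app R (pc 3) ∧ ¬ St3 R ∧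
      ∀ {m : ℕ} (r : X m), r.1 = R → ∀ Z, (TT r).1 = (pc 2 △ Z) △ .nil →
        (∃ A, (TT ((TT ^ i) v)).1 = A △ .nil) ∧ y + 2 + Vo ((TT ^ i) v) ≠ y ∧
          1 ≤ a (y + 2 + Vo ((TT ^ i) v)) := by
  obtain ⟨i, hi⟩ := exists_sp (by omega) v (y + 1)
  obtain ⟨t, ht⟩ : ∃ t, t = (TT ^ i) v := ⟨_, rfl⟩
  have hz' := pow_I3 v a z hz i
  rw [hi, ← ht] at hz'
  obtain ⟨b, hb⟩ : ∃ b : ZMod (2 * n + 1) → ℕ, b = fun x => a (x + (y + 1)) := ⟨_, rfl⟩
  rw [← hb] at hz'
  obtain ⟨l, hl, h1, h2⟩ := lf_snoc b
  have hb1 : b (-1) = 1 := by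
    rw [hb]
    change a (-1 + (y + 1)) = 1
    rw [show (-1 : ZMod (2 * n + 1)) + (y + 1) = y by ring]
    exact hy
  obtain ⟨b', hb'⟩ : ∃ b' : ZMod (2 * n + 1) → ℕ, b' = fun x => if x = -1 then 0 else b x := ⟨_, rfl⟩
  have h3 : lf b' = l ++ [0] := by
    rw [h2 b' (fun x hx => by rw [hb']; simp [hx]), hb']
    simp
  have htn : t.1.numNodes = n := X_num t
  have h01 : (0 : ZMod (2 * n + 1)) ≠ -1 := by
    intro e
    exact one_ne (n := n) (by omega) (by linear_combination e)
  refine ⟨i, iy 3 t.1 (lf b'), ?_, ?_, ?_⟩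
  · rw [hz', h1, hb1, h3]
    exact iy_snoc t.1 l 0 (by rw [htn]; omega)
  · intro hS
    obtain ⟨l', h4, -⟩ := lf_cons b'
    have h5 : b' 0 = 0 := by
      rw [hb']
      change (if (0 : ZMod (2 * n + 1)) = -1 then 0 else b 0) = 0
      rw [if_neg h01, hb]
      change a (0 + (y + 1)) = 0
      rw [zero_add]
      exact hy1
    rw [h5] at h4
    rw [h4, I3_eq] at hS
    obtain ⟨C, D, h6, h7⟩ := ins_head0 (X_ne (u := t) (by omega)) l'
    rw [h6] at hS
    exact h7 (st3_down hS)
  · intro m r hr Z hZ
    rw [TT_I3 t b' r hr, I3_eq] at hZ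
    obtain ⟨G, hG⟩ := prime_down hZ
    obtain ⟨h4, h5⟩ := prime_bead (t := (TT t).1) (by rw [X_num]; omega) (by rw [lf_length, X_num]) hG
    rw [← ht]
    refine ⟨h4, ?_⟩
    rw [List.getD_eq_getElem?_getD, List.getElem?_eq_getElem (by rw [lf_length]; omega), Option.getD_some,
      lf_getElem, Nat.cast_one] at h5
    have h6 : (1 : ZMod (2 * n + 1)) + Vo t ≠ -1 := by
      intro e
      rw [hb'] at h5
      simp only at h5
      rw [if_pos e] at h5
      omega
    rw [hb'] at h5
    simp only at h5
    rw [if_neg h6, hb] at h5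
    constructor
    · intro e
      exact h6 (by linear_combination e)
    · have h7 : y + 2 + Vo t = 1 + Vo t + (y + 1) := by ring
      rw [h7]
      exact h5

/-- a neighbouring pair of gaps: the phase at the second one -/
theorem adj_no (hn : 2 ≤ n) (u : X n) (h2 : n = 2 → pkn u.1 ≠ 1) {y1 y2 : ZMod (2 * n + 1)} (hy : y2 = y1 + 1)
    (h : y2 + 2 + Vo u = y1) {A : BinaryTree Unit} (hA : (TT u).1 = A △ .nil) : False := by
  have h3 : Vo u = ((2 * n - 2 : ℕ) : ZMod (2 * n + 1)) := by
    have h0 : ((2 * n + 1 : ℕ) : ZMod (2 * n + 1)) = 0 := ZMod.natCast_self _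
    obtain ⟨m, rfl⟩ : ∃ m, n = m + 1 := ⟨n - 1, by omega⟩
    rw [show 2 * (m + 1) - 2 = 2 * m by omega]
    rw [hy] at h
    push_cast at h0 ⊢
    linear_combination h - h0
  have h4 : nv u + 2 = 2 * n := by
    have h5 : nv u = 2 * n - 2 := by
      unfold nv
      rw [h3, ZMod.val_natCast, Nat.mod_eq_of_lt (by omega)]
    omega
  rcases Nat.lt_or_ge n 3 with h5 | h5
  · obtain rfl : n = 2 := by omega
    have h6 := nv_par 2 u
    have h7 : nv u = 2 := by omega
    rw [h7] at h6
    have h8 : ht u.1 ≤ 2 := by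
      have := ht_le u.1
      rw [X_num] at this
      exact this
    have h9 : 1 ≤ ht u.1 := ht_pos (X_ne (by omega))
    have h10 : ht u.1 = 2 := by omega
    have h11 := ht_fullX u h10
    apply h2 rfl
    rw [h11]
    rfl
  · exact nv_prime u h5 h4 A hA

theorem two_points [NeZero (2 * n + 1)] {a : ZMod (2 * n + 1) → ℕ} (h : ∑ x, a x = 2) (h1 : ∀ y, a y ≤ 1) :
    ∃ y1 y2, y1 ≠ y2 ∧ a y1 = 1 ∧ a y2 = 1 ∧ ∀ y, 1 ≤ a y → y = y1 ∨ y = y2 := by
  obtain ⟨y1, hy1⟩ : ∃ y, 1 ≤ a y := by
    by_contra hcon
    push Not at hcon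
    have : ∑ x, a x = 0 := Finset.sum_eq_zero fun x _ => by have := hcon x; omega
    omega
  have e1 : a y1 = 1 := by have := h1 y1; omega
  have h2 : ∑ x ∈ univ.erase y1, a x = 1 := by
    have := Finset.add_sum_erase univ a (mem_univ y1)
    omega
  obtain ⟨y2, hy2, hy2'⟩ : ∃ y ∈ univ.erase y1, 1 ≤ a y := by
    by_contra hcon
    push Not at hcon
    have : ∑ x ∈ univ.erase y1, a x = 0 := Finset.sum_eq_zero fun x hx => by have := hcon x hx; omega
    omega
  have e2 : a y2 = 1 := by have := h1 y2; omega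
  have h3 : ∑ x ∈ (univ.erase y1).erase y2, a x = 0 := by
    have := Finset.add_sum_erase (univ.erase y1) a hy2
    omega
  refine ⟨y1, y2, fun e => (Finset.mem_erase.1 hy2).1 e.symm, e1, e2, fun y hy => ?_⟩
  by_contra hcon
  push Not at hcon
  have h4 : y ∈ (univ.erase y1).erase y2 :=
    Finset.mem_erase.2 ⟨hcon.2, Finset.mem_erase.2 ⟨hcon.1, mem_univ _⟩⟩
  have := Finset.sum_eq_zero_iff.1 h3 y h4
  omega

/-- `T R` is not of the form `([3]Z)` -/
def NP (R : BinaryTree Unit) : Prop := ∀ {m : ℕ} (r : X m), r.1 = R → ∀ Z, (TT r).1 ≠ (pc 2 △ Z) △ .nil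

/-- **existence in coordinates** -/
theorem ex_coord (hn : 2 ≤ n) (v : X n) (h2 : n = 2 → pkn v.1 ≠ 1) (a : ZMod (2 * n + 1) → ℕ) (z : X k)
    (hz : z.1 = iy 3 v.1 (lf a)) (hs : ∑ x, a x = 2) (h1 : ∀ y, a y ≤ 1) :
    ∃ (i : ℕ) (R : BinaryTree Unit), ((TT ^ i) z).1 = app R (pc 3) ∧ ¬ St3 R ∧ NP R := by
  obtain ⟨y1, y2, hne, e1, e2, hcov⟩ := two_points hs h1
  have hz0 : ∀ y, y ≠ y1 → y ≠ y2 → a y = 0 := by
    intro y g1 g2
    by_contra hc
    rcases hcov y (by omega) with h | h
    · exact g1 h
    · exact g2 h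
  have hone := one_ne (n := n) (by omega)
  have htwo := two_ne (n := n) (by omega)
  have hpk : ∀ i : ℕ, n = 2 → pkn ((TT ^ i) v).1 ≠ 1 := fun i e => by rw [pkn_pow]; exact h2 e
  -- the two neighbouring cases
  have adj : ∀ x1 x2 : ZMod (2 * n + 1), x1 ≠ x2 → a x1 = 1 → a x2 = 1 → (∀ y, 1 ≤ a y → y = x1 ∨ y = x2) →
      x2 = x1 + 1 → ∃ (i : ℕ) (R : BinaryTree Unit), ((TT ^ i) z).1 = app R (pc 3) ∧ ¬ St3 R ∧ NP R := by
    intro x1 x2 g1 g2 g3 g4 g5
    have g6 : a (x2 + 1) = 0 := by
      by_contra hc
      rcases g4 (x2 + 1) (by omega) with h | h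
      · exact htwo (by rw [g5] at h; linear_combination h)
      · exact hone (by linear_combination h)
    obtain ⟨i, R, k1, k2, k3⟩ := phase hn v a z hz g3 g6
    refine ⟨i, R, k1, k2, ?_⟩
    intro m r hr Z hZ
    obtain ⟨⟨A, hA⟩, k4, k5⟩ := k3 r hr Z hZ
    have k6 : x2 + 2 + Vo ((TT ^ i) v) = x1 := (g4 _ k5).resolve_right k4
    exact adj_no hn _ (hpk i) g5 k6 hA
  by_cases c1 : y2 = y1 + 1
  · exact adj y1 y2 hne e1 e2 hcov c1
  by_cases c2 : y1 = y2 + 1
  · exact adj y2 y1 hne.symm e2 e1 (fun y hy => (hcov y hy).symm) c2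
  have f1 : a (y1 + 1) = 0 := hz0 _ (fun h => hone (by linear_combination h)) (fun h => c1 h.symm)
  have f2 : a (y2 + 1) = 0 := hz0 _ (fun h => c2 h.symm) (fun h => hone (by linear_combination h))
  obtain ⟨i, R, k1, k2, k3⟩ := phase hn v a z hz e1 f1
  obtain ⟨l, R', k1', k2', k3'⟩ := phase hn v a z hz e2 f2
  by_cases c3 : NP R
  · exact ⟨i, R, k1, k2, c3⟩
  refine ⟨l, R', k1', k2', ?_⟩
  unfold NP at c3
  push Not at c3
  obtain ⟨m, r, hr, Z, hZ⟩ := c3
  obtain ⟨-, k4, k5⟩ := k3 r hr Z hZ
  have k6 : y1 + 2 + Vo ((TT ^ i) v) = y2 := (hcov _ k5).resolve_left k4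
  intro m' r' hr' Z' hZ'
  obtain ⟨-, k4', k5'⟩ := k3' r' hr' Z' hZ'
  have k6' : y2 + 2 + Vo ((TT ^ l) v) = y1 := (hcov _ k5').resolve_right k4'
  exact no_two v hn i l (by linear_combination k6 + k6')

/-- the T-cycle is not a fixed point -/
theorem not_fix (hn : 2 ≤ n) (v : X n) (a : ZMod (2 * n + 1) → ℕ) (z : X k)
    (hz : z.1 = iy 3 v.1 (lf a)) (hs : ∑ x, a x = 2) (h1 : ∀ y, a y ≤ 1) : TT z ≠ z := by
  intro hf
  have h3 := TT_I3 v a z hz
  rw [hf, hz, I3_eq, I3_eq] at h3
  have h4 := inf_inj (inf_inj h3)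
  obtain ⟨-, h5⟩ := ins_inj (by rw [lf_length, X_num]) (by rw [lf_length, X_num]) h4
  have h6 := lf_inj h5
  obtain ⟨y1, y2, hne, e1, e2, hcov⟩ := two_points hs h1
  have g1 : a (y1 - Vo v) = 1 := by
    have := congrFun h6 (y1 - Vo v)
    simp only [sub_add_cancel] at this
    rw [this, e1]
  have g2 : a (y2 - Vo v) = 1 := by
    have := congrFun h6 (y2 - Vo v)
    simp only [sub_add_cancel] at this
    rw [this, e2]
  have hv : Vo v ≠ 0 := by
    intro h0
    have h7 := (TT_sl_vo v (by omega)).2
    rw [h0, ZMod.val_zero] at h7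
    simp [sl] at h7
  have g3 : y1 - Vo v = y2 := by
    rcases hcov _ (by omega : 1 ≤ a (y1 - Vo v)) with h | h
    · exact absurd (by linear_combination -h) hv
    · exact h
  have g4 : y2 - Vo v = y1 := by
    rcases hcov _ (by omega : 1 ≤ a (y2 - Vo v)) with h | h
    · exact h
    · exact absurd (by linear_combination -h) hv
  have g5 : 2 * Vo v = 0 := by linear_combination -g3 - g4
  have g6 : ((2 * nv v : ℕ) : ZMod (2 * n + 1)) = 0 := by
    push_cast
    unfold nv
    rw [ZMod.natCast_zmod_val]
    exact g5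
  rw [ZMod.natCast_eq_zero_iff] at g6
  have g7 : (2 * n + 1) ∣ nv v := by
    have : Nat.Coprime (2 * n + 1) 2 := by
      rw [Nat.coprime_comm]
      have : ¬ 2 ∣ (2 * n + 1) := by omega
      exact (Nat.Prime.coprime_iff_not_dvd Nat.prime_two).2 this
    exact this.dvd_of_dvd_mul_left g6
  have g8 : nv v < 2 * n + 1 := ZMod.val_lt _
  have g9 : nv v = 0 := Nat.eq_zero_of_dvd_of_lt g7 g8
  apply hv
  have : ((nv v : ℕ) : ZMod (2 * n + 1)) = Vo v := ZMod.natCast_zmod_val _
  rw [← this, g9, Nat.cast_zero]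

/-- **coordinates** of the content `(V,3,3)`, all parts of `V` at least `4` -/
theorem coord (z : X k) {V : Multiset ℕ} (hV : ∀ x ∈ V, 4 ≤ x) (hc : cont z.1 = V + {3, 3}) :
    ∃ (n : ℕ) (v : X n) (a : ZMod (2 * n + 1) → ℕ), z.1 = iy 3 v.1 (lf a) ∧ ∑ x, a x = 2 ∧
      (cont v.1).map (· + 3) = V := by
  have v1 : ∀ x, x < 4 → V.count x = 0 := fun x hx => Multiset.count_eq_zero.2 fun h => by
    have := hV x h; omega
  have h1 : (cont z.1).count 1 = 0 := by
    rw [hc, Multiset.count_add, v1 1 (by norm_num)]; rfl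
  have h2 : (cont z.1).count 2 = 0 := by
    rw [hc, Multiset.count_add, v1 2 (by norm_num)]; rfl
  obtain ⟨l1, u1, hu1⟩ := exists_inf z h1
  have h3 : (cont u1.1).count 1 = 0 := by rw [← count_two_inf, ← hu1]; exact h2
  obtain ⟨l2, u2, hu2⟩ := exists_inf u1 h3
  obtain ⟨n, v, e, he, hv, -, -⟩ := red_ex u2
  obtain ⟨a, rfl⟩ := exists_lf he
  have hz : z.1 = iy 3 v.1 (lf a) := by rw [I3_eq, hu1, hu2, hv]
  have h4 : cont z.1 = (cont v.1).map (· + 3) + Multiset.replicate (∑ x, a x) 3 := by
    rw [hz, I3_eq, cont_inf, cont_inf, cont_ins _ _ (by rw [lf_length, X_num]), lf_sum]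
    simp [Multiset.map_add, Multiset.map_replicate, Multiset.map_map, Function.comp_def]
  have h5 : ((cont v.1).map (· + 3)).count 3 = 0 := by
    rw [Multiset.count_eq_zero]
    intro h
    obtain ⟨x, hx, h6⟩ := Multiset.mem_map.1 h
    have := cont_pos _ _ hx
    omega
  have h6 : ∑ x, a x = 2 := by
    have h7 := congrArg (Multiset.count 3) h4
    rw [hc, Multiset.count_add, Multiset.count_add, v1 3 (by norm_num), h5,
      Multiset.count_replicate_self] at h7
    have h8 : Multiset.count 3 ({3, 3} : Multiset ℕ) = 2 := by decide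
    omega
  refine ⟨n, v, a, hz, h6, ?_⟩
  rw [h6, hc] at h4
  have h7 : (Multiset.replicate 2 3 : Multiset ℕ) = {3, 3} := rfl
  rw [h7] at h4
  exact (add_right_cancel h4).symm

/-- the trailing part of `sq` -/
theorem sq_tail : ∀ t : BinaryTree Unit, ∃ P, t = app P (Tsq.sq t).2 := by
  intro t
  induction t with
  | nil => exact ⟨.nil, rfl⟩
  | node _ A C _ ihC =>
    change ∃ P, A △ C = app P (Tsq.sq (A △ C)).2
    by_cases h : Tsq.ht A + 1 < Tsq.ht C
    · have hC : C ≠ .nil := by
        rintro rfl
        exact absurd h (by simp [Tsq.ht])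
      obtain ⟨X', Y, e, hX⟩ := sq_top13 C hC
      obtain ⟨P, hP⟩ := ihC
      have h1 : (Tsq.sq (A △ C)).2 = (Tsq.sq C).2 := by rw [Tsq.sq_lt h e]
      refine ⟨A △ P, ?_⟩
      rw [h1]
      change A △ C = A △ app P (Tsq.sq C).2
      rw [← hP]
    · by_cases hA : A = .nil
      · subst hA
        have h1 : Tsq.ht C ≤ 1 := by
          have : Tsq.ht (BinaryTree.nil : BinaryTree Unit) = 0 := rfl
          omega
        have h2 : (Tsq.sq (.nil △ C)).2 = C := congrArg Prod.snd (Tsq.sq_nil h1)
        exact ⟨.nil △ .nil, by rw [h2]; rfl⟩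
      · have h2 : (Tsq.sq (A △ C)).2 = C := congrArg Prod.snd (Tsq.sq_ge hA (by omega))
        exact ⟨A △ .nil, by rw [h2]; rfl⟩

theorem num_I3 (v : X n) (a : ZMod (2 * n + 1) → ℕ) (z : X k) (hz : z.1 = iy 3 v.1 (lf a)) :
    k = n + 3 * (pkn v.1 + ∑ x, a x) := by
  have h := (iy_num v.1 (lf a) (by rw [lf_length, X_num]) 2).1
  rw [← hz, X_num, X_num, lf_sum] at h
  exact h

/-- not all of the two parts `3` in one gap -/
theorem le_one (hn : 1 ≤ n) (v : X n) (a : ZMod (2 * n + 1) → ℕ) (z : X k) (hz : z.1 = iy 3 v.1 (lf a))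
    (hs : ∑ x, a x = 2) (hd : ∀ (w : X k) (P : BinaryTree Unit), cyc w = cyc z → w.1 ≠ app P (app (pc 3) (pc 3))) :
    ∀ y, a y ≤ 1 := by
  intro y
  by_contra hcon
  have h1 : a y = 2 := by
    have := Finset.single_le_sum (f := a) (fun x _ => Nat.zero_le _) (mem_univ y)
    omega
  obtain ⟨i, hi⟩ := exists_sp hn v (y + 1)
  have hz' := pow_I3 v a z hz i
  rw [hi] at hz'
  obtain ⟨l, hl, h2, -⟩ := lf_snoc (fun x => a (x + (y + 1)))
  have h3 : a (-1 + (y + 1)) = 2 := by
    rw [show (-1 : ZMod (2 * n + 1)) + (y + 1) = y by ring]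
    exact h1
  rw [h3] at h2
  have hnum : l.length = 2 * ((TT ^ i) v).1.numNodes := by rw [X_num]; omega
  rw [h2, iy_snoc _ l 1 hnum, iy_snoc _ l 0 hnum, Tsq.app_assoc] at hz'
  refine hd ((TT ^ i) z) _ ?_ hz'
  rw [cyc_eq]
  exact ⟨-(i : ℤ), by rw [zpow_neg, zpow_natCast]; simp⟩

/-- **EXISTENCE**: content `(V,3,3)`, all parts of `V` at least `4`, the parts `3` in different gaps: a word `R[3]` of the T-cycle
with: `R` does not start with `[3]`, not sp, `T R` not of the form `([3]Z)`; not a fixed point -/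
theorem ex33 (hk : 13 ≤ k) (z : X k) {V : Multiset ℕ} (hV : ∀ x ∈ V, 4 ≤ x) (hc : cont z.1 = V + {3, 3})
    (hd : ∀ (w : X k) (P : BinaryTree Unit), cyc w = cyc z → w.1 ≠ app P (app (pc 3) (pc 3))) :
    ∃ (w : X k) (R : BinaryTree Unit), cyc w = cyc z ∧ w.1 = app R (pc 3) ∧ ¬ St3 R ∧ (Tsq.sq R).2 ≠ pc 3 ∧
      NP R ∧ TT w ≠ w ∧ cont R = V + {3} := by
  obtain ⟨n, v, a, hz, hs, hv⟩ := coord z hV hc
  have hnum := num_I3 v a z hz
  rw [hs] at hnum
  have hp : pkn v.1 ≤ n := by
    have h1 := ht_le v.1
    have h2 : Multiset.card (cont v.1) ≤ (cont v.1).sum := by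
      have h3 := Multiset.card_nsmul_le_sum (s := cont v.1) (a := 1) (fun x hx => cont_pos _ _ hx)
      simpa using h3
    rw [cont_card, cont_sum, X_num] at h2
    exact h2
  have hn : 2 ≤ n := by omega
  have h1 := le_one (by omega) v a z hz hs hd
  obtain ⟨i, R, e1, e2, e3⟩ := ex_coord hn v (fun e h => by omega) a z hz hs h1
  have e0 : cyc ((TT ^ i) z) = cyc z := by
    rw [cyc_eq]
    exact ⟨-(i : ℤ), by rw [zpow_neg, zpow_natCast]; simp⟩
  refine ⟨(TT ^ i) z, R, e0, e1, e2, ?_, e3, ?_, ?_⟩
  · intro hB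
    obtain ⟨P, hP⟩ := sq_tail R
    rw [hB] at hP
    refine hd ((TT ^ i) z) P e0 ?_
    rw [e1, hP, Tsq.app_assoc]
  · intro hf
    apply not_fix hn v a z hz hs h1
    have : (TT ^ i) (TT z) = (TT ^ i) z := by
      rw [← Equiv.Perm.mul_apply, ← pow_succ, pow_succ', Equiv.Perm.mul_apply]
      exact hf
    exact (TT ^ i).injective this
  · have h2 := cont_pow z i
    rw [e1, cont_app, hc, cont_pc] at h2
    have h3 : V + ({3, 3} : Multiset ℕ) = (V + {3}) + {3} := by
      rw [add_assoc]; rfl
    rw [h3] at h2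
    exact add_right_cancel h2

/-- the same as a right window -/
theorem ex_R3 (hk : 13 ≤ k) (z : X k) {V : Multiset ℕ} (hV : ∀ x ∈ V, 4 ≤ x) (hc : cont z.1 = V + {3, 3})
    (hd : ∀ (w : X k) (P : BinaryTree Unit), cyc w = cyc z → w.1 ≠ app P (app (pc 3) (pc 3))) :
    ∃ (R B S : BinaryTree Unit) (w0 : X k), HM.NodeM k 0 R B S ∧ H1.wX R B S 0 w0 0 ≠ H1.wX R B S 0 w0 10 ∧
      ¬ St3 R ∧ ClR B S ∧ NP R ∧ cyc (H1.wX R B S 0 w0 0) = cyc z := by
  obtain ⟨w, R, e1, e2, e3, e4, e5, e6, e7⟩ := ex33 hk z hV hc hd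
  have hV0 : V ≠ 0 := by
    rintro rfl
    have h1 := congrArg Multiset.sum hc
    rw [cont_sum, X_num] at h1
    simp at h1
    omega
  have hmem : 3 ∈ cont R := by rw [e7]; simp
  have hmin : ∀ x ∈ cont R, 3 ≤ x := by
    intro x hx
    rw [e7] at hx
    rcases Multiset.mem_add.1 hx with h | h
    · have := hV x h; omega
    · rw [Multiset.mem_singleton] at h; omega
  have htop : 3 < ht R := by
    obtain ⟨x, hx⟩ := Multiset.exists_mem_of_ne_zero hV0
    have h1 := hV x hx
    rw [ht_eq]
    have : x ≤ (cont R).sup := Multiset.le_sup (by rw [e7]; exact Multiset.mem_add.2 (Or.inl hx))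
    omega
  obtain ⟨h, h0⟩ := nodeM_word (q := 0) e2 hmin hmem htop
  refine ⟨R, _, _, w, h, ?_, e3, h.clR (fun hB => e4 hB.1), e5, ?_⟩
  · exact neR_of_not_fixed h w (by rw [h0 w]; exact e6)
  · rw [h0 w]; exact e1

/-! ### The inner word of the pair 9 > 17 is on no E triple -/

/-- insertion of a word -/
theorem wd_insert (u : BinaryTree Unit) : ∀ (t : BinaryTree Unit) (x y : List Bool), wd t = x ++ y →
    ∃ t', wd t' = x ++ (wd u ++ y) := by
  intro t
  induction t with
  | nil =>
    intro x y h
    have h1 : x ++ y = [] := h.symm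
    obtain ⟨rfl, rfl⟩ := List.append_eq_nil_iff.1 h1
    exact ⟨u, by simp⟩
  | node _ A B ihA ihB =>
    intro x y h
    have h0 : wd (A △ B) = x ++ y := h
    rw [wd_node] at h0
    cases x with
    | nil =>
      refine ⟨app u (A △ B), ?_⟩
      rw [wd_app, wd_node, h0]
      rfl
    | cons x0 x =>
      rw [List.cons_append, List.cons.injEq] at h0
      obtain ⟨rfl, h1⟩ := h0
      rcases List.append_eq_append_iff.1 h1 with ⟨c, h2, h3⟩ | ⟨c, h2, h3⟩
      · -- x = wd A ++ c
        cases c with
        | nil =>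
          refine ⟨app A u △ B, ?_⟩
          rw [List.append_nil] at h2
          rw [List.nil_append] at h3
          rw [wd_node, wd_app, h2, ← h3]
          simp
        | cons c0 c =>
          rw [List.cons_append, List.cons.injEq] at h3
          obtain ⟨rfl, h4⟩ := h3
          obtain ⟨B', hB'⟩ := ihB c y h4
          refine ⟨A △ B', ?_⟩
          rw [wd_node, hB', h2]
          simp
      · -- wd A = x ++ c
        obtain ⟨A', hA'⟩ := ihA x c h2
        refine ⟨A' △ B, ?_⟩
        rw [wd_node, hA', h3]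
        simp

theorem raise_mem_of {M : Multiset ℕ} {x : ℕ} (h : x ∈ M) (hx : x ≠ M.sup) : x ∈ raise M := by
  unfold raise
  exact Multiset.mem_cons_of_mem ((Multiset.mem_erase_of_ne hx).2 h)

/-- **T(word 9) is no word of an E triple** -/
theorem no9 {R B S : BinaryTree Unit} {F' : Set (Cyc k)} {g' : DG k} (h : HM.NodeM k 0 R B S) (hNP : NP R) (w0 : X k)
    (h' : TyE F' g') : TT (H1.wX R B S 0 w0 9) ∉ g'.B := by
  refine h.not_E w0 (i := 9) (by simp) (Or.inl rfl) h' (Or.inr (Or.inr (Or.inr (Or.inr ⟨rfl, ?_⟩))))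
  intro Y hY hfh
  have hin := (h.inn w0 (i := 9) (by simp)).1
  obtain ⟨a, b, hft⟩ := h.fmt
  have hf := hft.fm
  have htop := h.top
  have hs : Tsq.ht R = ht R := H1.ht_eq R
  obtain ⟨r, hr⟩ : ∃ r : X R.numNodes, r.1 = R := ⟨⟨R, mem_treesOfNumNodesEq.2 rfl⟩, rfl⟩
  have eR : wd (TT r).1 = b.map not ++ false :: a.map not := H1.FM.wdT (x := r) (by rw [hr]; exact hf)
  have hn : Tsq.ht (.nil : BinaryTree Unit) = 0 := rfl
  have hc : ∀ n, Tsq.ht (H1.ch n) = n := fun n => by rw [H1.ht_eq, H1.ch_ht]
  have e9 : wd (TT (H1.wX R B S 0 w0 9)).1 = b.map not ++ true :: true :: false :: true :: false :: false :: false ::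
      a.map not := by
    have k1 := (hf.node (Z := .nil) (by rw [hn]; omega)).node (Z := H1.ch 1) (by
      rw [Tsq.ht_node, hc, hn]; omega)
    have e' : (H1.wX R B S 0 w0 9).1 = ((R △ .nil) △ H1.ch 1) := H1.wX_eq h.dat h.size w0 (by norm_num)
    rw [← e'] at k1
    rw [k1.wdT]
    simp [H1.ch, wd_node, wd]
  -- `Y = P Q`
  obtain ⟨P, Q, hYe, hP⟩ : ∃ P Q, Y = P △ Q ∧ P ≠ .nil := by
    cases Y with
    | nil => exact absurd hfh (by simp [H1.fh])
    | node _ P Q =>
      refine ⟨P, Q, rfl, ?_⟩
      rintro rfl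
      have h1 := hin.start (n := 2) (v := wd Q ++ [false]) (by
        rw [hY, wd_node, wd_node]; simp [wd, List.replicate_succ])
      omega
  subst hYe
  rw [show H1.fh (P △ Q) = ht P from H1.fh_node hP Q] at hfh
  have hPt : Tsq.ht P = 2 := by rw [H1.ht_eq]; exact hfh
  have eY : wd (TT (H1.wX R B S 0 w0 9)).1 = (true :: true :: (wd P ++ [false])) ++ (wd Q ++ [false]) := by
    rw [hY, wd_node, wd_node]; simp [wd]
  rw [e9] at eY
  have cb1 : (b.map not).count true = b.count false := Tsq.count_not_true b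
  have cb2 : (b.map not).count false = b.count true := Tsq.count_not_false b
  have hbal := hf.bal
  generalize b.map not = β at *
  generalize a.map not = α at *
  have cP := wd_counts P
  have hmax : ∀ m, ((true :: true :: (wd P ++ [false])).take m).count true ≤
      ((true :: true :: (wd P ++ [false])).take m).count false + 4 := by
    intro m
    rcases m with _ | _ | m
    · simp
    · simp
    · have h1 := Tsq.ht_take P m
      rw [hPt] at h1
      simp only [List.take_succ_cons, List.count_cons, List.take_append, List.count_append]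
      have h2 : (([false] : List Bool).take (m - (wd P).length)).count true = 0 := by
        cases m - (wd P).length <;> simp
      rw [h2]
      simp
      omega
  rcases List.append_eq_append_iff.1 eY with ⟨c, h1, h2⟩ | ⟨c, h1, h2⟩
  · -- the prefix ends behind `β`
    exfalso
    cases c with
    | nil =>
      rw [List.append_nil] at h1
      have h3 := congrArg (List.count true) h1
      have h4 := congrArg (List.count false) h1
      simp only [List.count_cons, List.count_append] at h3 h4
      simp at h3 h4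
      omega
    | cons c0 c =>
      rw [List.cons_append, List.cons.injEq] at h2
      obtain ⟨rfl, -⟩ := h2
      have h3 := hmax (β.length + 1)
      rw [h1] at h3
      have h4 : (β ++ true :: c).take (β.length + 1) = β ++ [true] := by
        rw [List.take_append]
        simp
      rw [h4, List.count_append, List.count_append] at h3
      simp at h3
      omega
  · -- `β = p ++ c`
    cases hT : (TT r).1 with
    | nil =>
      rw [hT] at eR
      simp [wd] at eR
    | node _ D E =>
      have hT' : (TT r).1 = D △ E := hT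
      rw [hT', wd_node, h1] at eR
      have eR2 : wd D ++ false :: wd E = true :: (wd P ++ false :: (c ++ false :: α)) := by
        simpa using eR
      cases D with
      | nil => simp [wd] at eR2
      | node _ P' Q' =>
        have e3 : wd (P' △ Q') = true :: (wd P' ++ false :: wd Q') := wd_node P' Q'
        rw [show (BinaryTree.node () P' Q') = P' △ Q' from rfl, e3] at eR2
        have e4 : wd P' ++ false :: (wd Q' ++ false :: wd E) = wd P ++ false :: (c ++ false :: α) := by
          simpa using eR2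
        obtain ⟨rfl, e5⟩ := wd_inj _ _ _ _ e4
        -- the content
        have hcont : cont ((P' △ Q') △ E) = cont R := by
          have := H1.cont_TT r
          rw [hT', hr] at this
          exact this
        have hPc : cont P' = {2} := by
          have h3 : (cont P').sup = 2 := by rw [← ht_eq]; exact hfh
          have h4 : 2 ∈ cont P' := by
            rw [← h3]
            exact sup_mem (fun h0 => by rw [h0] at h3; simp at h3)
          obtain ⟨M, hM⟩ := Multiset.exists_cons_of_mem h4
          have h5 : M = 0 := by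
            by_contra h6
            obtain ⟨x, hx⟩ := Multiset.exists_mem_of_ne_zero h6
            have h7 : x ≤ 2 := by
              rw [← h3]
              exact Multiset.le_sup (by rw [hM]; exact Multiset.mem_cons_of_mem hx)
            have h8 : x ∈ raise (cont P') := by
              unfold raise
              rw [h3, hM, Multiset.erase_cons_head]
              exact Multiset.mem_cons_of_mem hx
            have h9 : 3 ∈ raise (cont P') := by
              unfold raise
              rw [h3]
              exact Multiset.mem_cons_self _ _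
            have h10 : x ∈ cont (P' △ Q') := by
              rw [cont_node]
              exact Multiset.mem_add.2 (Or.inl h8)
            have h11 : 3 ≤ (cont (P' △ Q')).sup := Multiset.le_sup (by
              rw [cont_node]; exact Multiset.mem_add.2 (Or.inl h9))
            have h12 : x ∈ cont R := by
              rw [← hcont, cont_node]
              exact Multiset.mem_add.2 (Or.inl (raise_mem_of h10 (by omega)))
            have := h.part x h12
            omega
          rw [hM, h5]
          rfl
        have hP2 : P' = pc 2 := by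
          rw [H1.cont_one 1 hPc, H1.ch_eq]
        -- prime
        have hE : E = .nil := by
          have e6 : (wd Q ++ [false] : List Bool) = c ++ true :: true :: false :: true :: false :: false :: false :: α := by
            rw [h2]
          obtain ⟨U, hU⟩ : ∃ U : BinaryTree Unit, wd U = [true, true, false, true, false, false] :=
            ⟨(.nil △ (.nil △ .nil)) △ .nil, by simp [wd_node, wd]⟩
          have key : ∀ Q3 : BinaryTree Unit, wd Q ++ false :: ([] : List Bool) = wd Q3 ++ false :: wd E → E = .nil := by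
            intro Q3 hQ3
            have h3 := (wd_inj _ _ _ _ hQ3).2
            cases E with
            | nil => rfl
            | node _ E1 E2 =>
              rw [show (BinaryTree.node () E1 E2) = E1 △ E2 from rfl, wd_node] at h3
              simp at h3
          rcases List.append_eq_append_iff.1 e5 with ⟨d, h3, h4⟩ | ⟨d, h3, h4⟩
          · -- c = wd Q' ++ d
            cases d with
            | nil =>
              rw [List.append_nil] at h3
              rw [List.nil_append, List.cons.injEq] at h4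
              apply key (app Q' U)
              rw [e6, wd_app, hU, h3, ← h4.2]
              simp
            | cons d0 d =>
              rw [List.cons_append, List.cons.injEq] at h4
              obtain ⟨rfl, h4⟩ := h4
              exfalso
              have e7 : wd Q ++ false :: ([] : List Bool) = wd Q' ++ false :: (d ++ true :: true :: false :: true ::
                  false :: false :: false :: α) := by
                rw [e6, h3]; simp
              have := (wd_inj _ _ _ _ e7).2
              simp at this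
          · -- wd Q' = c ++ d
            cases d with
            | nil =>
              rw [List.append_nil] at h3
              rw [List.nil_append, List.cons.injEq] at h4
              apply key (app Q' U)
              rw [e6, wd_app, hU, h3, h4.2]
              simp
            | cons d0 d =>
              rw [List.cons_append, List.cons.injEq] at h4
              obtain ⟨rfl, h4⟩ := h4
              obtain ⟨Q3, hQ3⟩ := wd_insert U Q' c (false :: d) h3
              apply key Q3
              rw [e6, hQ3, hU, h4]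
              simp
        subst hE
        subst hP2
        exact hNP r hr Q' hT'

end Ex33

end Pool.OddHC
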