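import Pool.Agent.Work.MP_8f87b2_h21.JVns
import Pool.Agent.Work.MP_8f87b2_h17.Nat1
import Pool.Agent.Work.MP_8f87b2_h11.T
set_option autoImplicit false
set_option linter.all false

/-!
# MP_8f87b2_co: two consecutive letters with a phase which is not sharp, every `V` with at least two parts

`NSx.ns_pair`: if the T-cycle of `x` (at least two parts) has a doubly prime word (or only a word whose first maximum lies in
the last component), then for some time `i` the words `T^i x`, `T^(i+2) x` are both not sharp and the star moves back by one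
letter from `i` to `i + 2`.
-/

namespace Pool.OddHC
open Finset Equiv BinaryTree Pool.Agent.Work.MP_8f87b2_co
variable {k : ℕ}
namespace NSx

/-- the first maximum of `x` and of `T x`, if the first maximum of `x` is in the last component -/
theorem FM_of_sq {x : X k} (hx : x.1 ≠ .nil) (hB : (Tsq.sq x.1).2 = .nil) :
    ∃ a c : List Bool, H1.FM x.1 a (c ++ [false]) ∧ H1.FM (TT x).1 (c.map not) (false :: a.map not) := by
  obtain ⟨a, c, h1, h2, h3, h4, h5, h6, h7⟩ := Tsq.sq_spec x.1 hx
  rw [hB] at h1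
  have f1 : H1.FM x.1 a (c ++ [false]) := ⟨by rw [h1]; rfl, h3, h4⟩
  have hT : wd (TT x).1 = c.map not ++ true :: (false :: a.map not) := by
    rw [f1.wdT]
    simp
  have hh : Tsq.ht (TT x).1 = Tsq.ht x.1 := by
    rw [H1.ht_eq, H1.ht_eq, ht_eq, ht_eq, H1.cont_TT]
  refine ⟨a, c, f1, ⟨hT, ?_, ?_⟩⟩
  · intro m
    have hS := wd_take (Tsq.sq x.1).1 (a.length + 2 + m)
    rw [h2] at hS
    have e1 : (true :: (a ++ false :: c)).take (a.length + 2 + m) = true :: (a ++ false :: c.take m) := by
      rw [show a.length + 2 + m = (a.length + 1 + m) + 1 by omega, List.take_succ_cons, List.take_append,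
        List.take_of_length_le (by omega)]
      congr 2
      rw [show a.length + 1 + m - a.length = m + 1 by omega, List.take_succ_cons]
    rw [e1] at hS
    simp only [List.count_cons, List.count_append] at hS
    rw [hh, ← List.map_take, Tsq.count_not_true, Tsq.count_not_false]
    simp at hS
    omega
  · rw [hh, Tsq.count_not_true, Tsq.count_not_false]
    omega

theorem nv_FM {x : X k} {a b : List Bool} (h : H1.FM x.1 a b) : nv x = a.length + 1 := Ft.Vo_FM h

/-- the star moves back by one letter in two steps -/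
theorem nv_two {x : X k} (hx : x.1 ≠ .nil) (hB : (Tsq.sq x.1).2 = .nil) : nv x + nv (TT x) = 2 * k := by
  obtain ⟨a, c, f1, f2⟩ := FM_of_sq hx hB
  rw [nv_FM f1, nv_FM f2]
  have h := congrArg List.length f1.eq
  rw [wd_length, X_num] at h
  simp at h ⊢
  omega

theorem TT_ne {x : X k} (hx : x.1 ≠ .nil) : (TT x).1 ≠ .nil := by
  intro h
  have h1 := X_num (TT x)
  rw [h] at h1
  have h2 : k = 0 := h1.symm
  subst h2
  apply hx
  have h3 := X_num x
  cases h4 : x.1 with
  | nil => rfl
  | node _ A B => rw [h4] at h3; change A.numNodes + B.numNodes + 1 = 0 at h3; omega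

/-- a prime word has no last part -/
theorem sq_prime (A : BinaryTree Unit) : (Tsq.sq (A △ .nil)).2 = .nil := by
  rw [Tsq.sq_node, if_neg (by rw [show Tsq.ht (.nil : BinaryTree Unit) = 0 from rfl]; omega)]

theorem sq_prime' (A : BinaryTree Unit) : ∃ Z W, (Tsq.sq (A △ .nil)).1 = Z △ W ∧
    ((∃ A', A = A' △ .nil) → W = .nil) := by
  rw [Tsq.sq_node, if_neg (by rw [show Tsq.ht (.nil : BinaryTree Unit) = 0 from rfl]; omega)]
  cases A with
  | nil => exact ⟨.nil, .nil, rfl, fun _ => rfl⟩
  | node u A1 A2 =>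
    refine ⟨_, _, rfl, ?_⟩
    rintro ⟨A', hA⟩
    have e : (BinaryTree.node u A1 A2) = A' △ .nil := hA
    rw [e]
    exact sq_prime A'

/-- **not sharp, before** -/
theorem ns_before {x : X k} (h : (Tsq.sq (TT x).1).2 ≠ .nil) : JV.NS x.1 := by
  intro j y Y hy he
  have hj : j = k := by
    rw [← X_num (TT y), he, X_num]
  subst hj
  have e1 : TT y = x := Subtype.ext he
  apply h
  rw [← e1, Tsq.TT_sq y (by rw [hy]; simp), hy, sq_prime]
  obtain ⟨Z, W, h1, h2⟩ := sq_prime' (Y △ .nil)
  rw [h1, h2 ⟨Y, rfl⟩]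
  exact sq_prime Z

/-- **not sharp, after** -/
theorem ns_after {x : X k} (h : (Tsq.sq (TT x).1).2 ≠ .nil) : JV.NS (TT (TT x)).1 := by
  intro j y Y hy he
  have hj : j = k := by
    rw [← X_num (TT y), he, X_num]
  subst hj
  have e1 : y = TT x := TT.injective (Subtype.ext he)
  apply h
  rw [← e1, hy, sq_prime]

/-- if the first maximum is always in the last component then there is one soliton -/
theorem one_soliton {x : X k} (hx : x.1 ≠ .nil) (h : ∀ i, (Tsq.sq ((TT ^ i) x).1).2 = .nil) : ht x.1 = k := by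
  have hne : ∀ i, ((TT ^ i) x).1 ≠ .nil := by
    intro i
    induction i with
    | zero => exact hx
    | succ i ih => rw [pow_succ', Equiv.Perm.mul_apply]; exact TT_ne ih
  have hht : ∀ i, Tsq.ht ((TT ^ i) x).1 = Tsq.ht x.1 := by
    intro i
    induction i with
    | zero => rfl
    | succ i ih => rw [pow_succ', Equiv.Perm.mul_apply, ← ih, H1.ht_eq, H1.ht_eq, ht_eq, ht_eq, H1.cont_TT]
  -- the words before the first maximum
  choose a c f1 f2 using fun i => FM_of_sq (hne i) (h i)
  have e1 : ∀ i, a (i + 1) = (c i).map not ∧ c (i + 1) ++ [false] = false :: (a i).map not := by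
    intro i
    have g2 := f2 i
    have e : TT ((TT ^ i) x) = (TT ^ (i + 1)) x := by rw [pow_succ', Equiv.Perm.mul_apply]
    rw [e] at g2
    exact (f1 (i + 1)).uniq g2
  have e2 : ∀ i, a (i + 2) ++ [true] = true :: a i := by
    intro i
    have h1 := (e1 (i + 1)).1
    have h2 := congrArg (List.map not) (e1 i).2
    rw [List.map_append, List.map_cons (l := (a i).map not), Ft.map_not_not, ← h1] at h2
    simpa using h2
  have e3 : ∀ j i, a (i + 2 * j) ++ List.replicate j true = List.replicate j true ++ a i := by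
    intro j
    induction j with
    | zero => intro i; simp
    | succ j ih =>
      intro i
      have h1 := e2 (i + 2 * j)
      rw [show i + 2 * (j + 1) = i + 2 * j + 2 by ring, List.replicate_succ, ← List.singleton_append,
        ← List.append_assoc, h1]
      rw [show ([true] ++ List.replicate j true ++ a i) = [true] ++ (List.replicate j true ++ a i) by simp,
        ← ih i]
      simp
  have e4 : ∀ i j, (a (i + 2 * j)).length = (a i).length := by
    intro i j
    have := congrArg List.length (e3 j i)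
    simp at this
    omega
  have e5 : ∀ i, (a i).length + 1 = Tsq.ht x.1 := by
    intro i
    have h1 := e3 (a i).length i
    have h2 : a (i + 2 * (a i).length) = List.replicate (a i).length true :=
      (List.append_inj h1 (by rw [e4, List.length_replicate])).1
    have h3 := (f1 (i + 2 * (a i).length)).top
    rw [hht, h2] at h3
    simp [List.count_replicate] at h3
    omega
  have h6 := nv_two (hne 0) (h 0)
  have h7 : TT ((TT ^ 0) x) = (TT ^ 1) x := rfl
  rw [h7, nv_FM (f1 0), nv_FM (f1 1), e5, e5, H1.ht_eq] at h6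
  omega

theorem card_one {x : X k} (h : ht x.1 = k) : Multiset.card (cont x.1) ≤ 1 := by
  by_contra hc
  have h1 : (cont x.1).sum = k := by rw [cont_sum, X_num]
  rw [ht_eq] at h
  have hx : cont x.1 ≠ 0 := by
    intro h0
    rw [h0] at hc
    simp at hc
  have hm : (cont x.1).sup ∈ cont x.1 := by
    have h2 : ∀ s : Multiset ℕ, s ≠ 0 → s.sup ∈ s := by
      intro s
      induction s using Multiset.induction with
      | empty => intro h; exact absurd rfl h
      | cons b s ih =>
        intro _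
        rw [Multiset.sup_cons]
        rcases eq_or_ne s 0 with rfl | hs
        · simp
        · rcases le_total b s.sup with h3 | h3
          · rw [sup_eq_right.2 h3]
            exact Multiset.mem_cons_of_mem (ih hs)
          · rw [sup_eq_left.2 h3]
            exact Multiset.mem_cons_self _ _
    exact h2 _ hx
  obtain ⟨s, hs⟩ := Multiset.exists_cons_of_mem hm
  have h8 : (cont x.1).sup + s.sum = k := by
    have h9 := congrArg Multiset.sum hs
    rw [Multiset.sum_cons] at h9
    omega
  have h3 : s.sum = 0 := by omega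
  have h4 : Multiset.card (cont x.1) = Multiset.card s + 1 := by rw [hs, Multiset.card_cons]
  have h5 : s ≠ 0 := by
    rintro rfl
    rw [h4] at hc
    simp at hc
  obtain ⟨b, hb⟩ := Multiset.exists_mem_of_ne_zero h5
  have h6 : b ≤ s.sum := Multiset.single_le_sum (fun _ _ => Nat.zero_le _) b hb
  have h7 : 1 ≤ b := cont_pos x.1 b (by rw [hs]; exact Multiset.mem_cons_of_mem hb)
  omega

/-- **two consecutive letters with a phase which is not sharp** -/
theorem ns_pair {x : X k} (h2 : 2 ≤ Multiset.card (cont x.1)) (hB : (Tsq.sq x.1).2 = .nil) :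
    ∃ i, (Tsq.sq ((TT ^ i) x).1).2 = .nil ∧ (Tsq.sq ((TT ^ (i + 1)) x).1).2 ≠ .nil ∧
      JV.NS ((TT ^ i) x).1 ∧ JV.NS ((TT ^ (i + 2)) x).1 ∧ nv ((TT ^ i) x) + nv ((TT ^ (i + 1)) x) = 2 * k := by
  have hx : x.1 ≠ .nil := by
    intro h
    rw [h, cont_nil] at h2
    simp at h2
  have hne : ∀ i, ((TT ^ i) x).1 ≠ .nil := by
    intro i
    induction i with
    | zero => exact hx
    | succ i ih => rw [pow_succ', Equiv.Perm.mul_apply]; exact TT_ne ih
  have key : ∃ i, (Tsq.sq ((TT ^ i) x).1).2 = .nil ∧ (Tsq.sq ((TT ^ (i + 1)) x).1).2 ≠ .nil := by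
    by_contra hc
    push Not at hc
    have hall : ∀ i, (Tsq.sq ((TT ^ i) x).1).2 = .nil := by
      intro i
      induction i with
      | zero => exact hB
      | succ i ih => exact hc i ih
    have := card_one (one_soliton hx hall)
    omega
  obtain ⟨i, h1, h3⟩ := key
  have e1 : TT ((TT ^ i) x) = (TT ^ (i + 1)) x := by rw [pow_succ', Equiv.Perm.mul_apply]
  have e2 : TT (TT ((TT ^ i) x)) = (TT ^ (i + 2)) x := by
    rw [e1, show i + 2 = (i + 1) + 1 by ring, pow_succ' TT (i + 1), Equiv.Perm.mul_apply]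
  refine ⟨i, h1, h3, ?_, ?_, ?_⟩
  · exact ns_before (by rw [e1]; exact h3)
  · rw [← e2]
    exact ns_after (by rw [e1]; exact h3)
  · rw [← e1]
    exact nv_two (hne i) h1

/-- if some word of the T-cycle is sharp, i.e. `T` of a doubly prime word -/
theorem ns_pair_sharp {x : X k} (h2 : 2 ≤ Multiset.card (cont x.1)) (h : ¬ JV.NS x.1) :
    ∃ (y : X k), cyc y = cyc x ∧ JV.NS y.1 ∧ JV.NS (TT (TT y)).1 ∧ nv y + nv (TT y) = 2 * k ∧
      (Tsq.sq y.1).2 = .nil ∧ (Tsq.sq (TT y).1).2 ≠ .nil := by
  unfold JV.NS at h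
  push Not at h
  obtain ⟨j, y, Y, hy, he⟩ := h
  have hj : j = k := by
    rw [← X_num (TT y), he, X_num]
  subst hj
  have e1 : TT y = x := Subtype.ext he
  have hc : cont y.1 = cont x.1 := by rw [← e1, H1.cont_TT]
  obtain ⟨i, g1, g2, g3, g4, g5⟩ := ns_pair (x := y) (by rw [hc]; exact h2) (by rw [hy]; exact sq_prime _)
  have e2 : TT ((TT ^ i) y) = (TT ^ (i + 1)) y := by rw [pow_succ', Equiv.Perm.mul_apply]
  have e3 : TT (TT ((TT ^ i) y)) = (TT ^ (i + 2)) y := by
    rw [e2, show i + 2 = (i + 1) + 1 by ring, pow_succ' TT (i + 1), Equiv.Perm.mul_apply]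
  refine ⟨(TT ^ i) y, ?_, g3, by rw [e3]; exact g4, by rw [e2]; exact g5, g1, by rw [e2]; exact g2⟩
  rw [← e1]
  exact (cyc_eq.2 ⟨(i : ℤ), by rw [zpow_natCast]⟩ : cyc y = cyc ((TT ^ i) y)).symm.trans (cyc_eq.2 ⟨(1 : ℤ), by simp⟩)

/-- **THE FACT** (helper2's form): two consecutive letters which are not sharp -/
theorem fact {j2 : ℕ} (v : X j2) (h2 : 2 ≤ Multiset.card (OddHC.cont v.1))
    (hs : ∃ i : ℕ, ¬ JV.NS ((TT ^ i) v).1) :
    ∃ i : ℕ, JV.NS ((TT ^ i) v).1 ∧ JV.NS ((TT ^ (i + 2)) v).1 ∧ sp v (i + 2) = sp v i - 1 := by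
  obtain ⟨i0, hi0⟩ := hs
  unfold JV.NS at hi0
  push Not at hi0
  obtain ⟨j, y, Y, hy, he⟩ := hi0
  have hj : j = j2 := by
    rw [← X_num (TT y), he, X_num]
  subst hj
  have e1 : TT y = (TT ^ i0) v := Subtype.ext he
  -- `y = T^m v`
  obtain ⟨m, hm⟩ : ∃ m : ℕ, (TT ^ m) v = y := by
    have hN : 0 < orderOf (TT : Equiv.Perm (X j)) := orderOf_pos _
    refine ⟨i0 + (orderOf (TT : Equiv.Perm (X j)) - 1), ?_⟩
    have h1 : (TT ^ (i0 + (orderOf (TT : Equiv.Perm (X j)) - 1))) v =
        (TT ^ (orderOf (TT : Equiv.Perm (X j)) - 1)) ((TT ^ i0) v) := by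
      rw [add_comm, pow_add, Equiv.Perm.mul_apply]
    rw [h1, ← e1, ← Equiv.Perm.mul_apply, ← pow_succ, Nat.sub_add_cancel hN, pow_orderOf_eq_one]
    rfl
  have hc : cont y.1 = cont v.1 := by
    rw [← hm]
    have h3 : ∀ m : ℕ, cont ((TT ^ m) v).1 = cont v.1 := by
      intro m
      induction m with
      | zero => rfl
      | succ m ih => rw [pow_succ', Equiv.Perm.mul_apply, H1.cont_TT, ih]
    exact h3 m
  obtain ⟨i, g1, g2, g3, g4, g5⟩ := ns_pair (x := y) (by rw [hc]; exact h2) (by rw [hy]; exact sq_prime _)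
  have e4 : ∀ l : ℕ, (TT ^ l) y = (TT ^ (l + m)) v := by
    intro l
    rw [← hm, pow_add, Equiv.Perm.mul_apply]
  refine ⟨i + m, by rw [← e4]; exact g3, by rw [show i + m + 2 = i + 2 + m by ring, ← e4]; exact g4, ?_⟩
  rw [show i + m + 2 = (i + m + 1) + 1 by ring, sp_succ, sp_succ]
  rw [e4, e4, show i + 1 + m = i + m + 1 by ring] at g5
  have h5 : (((nv ((TT ^ (i + m)) v) + nv ((TT ^ (i + m + 1)) v) : ℕ) : ZMod (2 * j + 1))) = ((2 * j : ℕ) : ZMod (2 * j + 1)) := by
    rw [g5]
  have h6 : ((2 * j + 1 : ℕ) : ZMod (2 * j + 1)) = 0 := ZMod.natCast_self _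
  have h7 : ∀ x : X j, ((nv x : ℕ) : ZMod (2 * j + 1)) = Vo x := fun x => ZMod.natCast_zmod_val _
  rw [Nat.cast_add, h7, h7] at h5
  rw [Nat.cast_add, Nat.cast_one] at h6
  rw [add_assoc, h5]
  linear_combination h6

end NSx
end Pool.OddHC
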